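import Pool.Agent.W_d1cfb0_U59.OpenMap
import Pool.Agent.W_MP_cd67d3_gt.Top
import Pool.Agent.W_d1cfb0_h45.Closure

/-!
MP_d1cfb0_an. The group of homeomorphisms of a compact metric space is a Polish group.
-/

namespace Pool.Agent.W_d1cfb0_U59

open Topology Filter Set
open Pool.Agent.W_MP_cd67d3_gt Pool.Agent.W_d1cfb0_h45

attribute [local instance] homeoTopology

theorem toPair_inj {X : Type*} [TopologicalSpace X] : Function.Injective (toPair : (X ≃ₜ X) → _) := by
  intro f g h
  have h1 := congrArg Prod.fst h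
  ext x
  exact DFunLike.congr_fun h1 x

/-- The group of homeomorphisms of a compact metric space is Polish. -/
theorem polish_homeo {X : Type*} [MetricSpace X] [CompactSpace X] : PolishSpace (X ≃ₜ X) := by
  have hemb : IsClosedEmbedding (toPair : (X ≃ₜ X) → C(X, X) × C(X, X)) := by
    refine ⟨⟨⟨rfl⟩, toPair_inj⟩, ?_⟩
    have h1 : range (toPair : (X ≃ₜ X) → C(X, X) × C(X, X)) =
        {p | p.2.comp p.1 = ContinuousMap.id X} ∩ {p | p.1.comp p.2 = ContinuousMap.id X} := by
      ext p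
      constructor
      · rintro ⟨f, rfl⟩
        constructor
        · show (toPair f).2.comp (toPair f).1 = ContinuousMap.id X
          ext x
          exact f.symm_apply_apply x
        · show (toPair f).1.comp (toPair f).2 = ContinuousMap.id X
          ext x
          exact f.apply_symm_apply x
      · rintro ⟨h1, h2⟩
        refine ⟨⟨⟨p.1, p.2, fun x => DFunLike.congr_fun h1 x, fun x => DFunLike.congr_fun h2 x⟩,
          p.1.continuous, p.2.continuous⟩, ?_⟩
        refine Prod.ext ?_ ?_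
        · ext x
          rfl
        · ext x
          rfl
    rw [h1]
    refine IsClosed.inter ?_ ?_
    · exact isClosed_eq (ContinuousMap.continuous_comp'.comp (continuous_fst.prodMk continuous_snd)) continuous_const
    · exact isClosed_eq (ContinuousMap.continuous_comp'.comp (continuous_snd.prodMk continuous_fst)) continuous_const
  have : SecondCountableTopology X := inferInstance
  have : PolishSpace C(X, X) := inferInstance
  exact hemb.polishSpace

/-- Neighbourhoods in terms of distances. -/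
theorem mem_nhds_homeo {X : Type*} [MetricSpace X] [CompactSpace X] {f : X ≃ₜ X} {s : Set (X ≃ₜ X)} :
    s ∈ 𝓝 f ↔ ∃ ε : ℝ, 0 < ε ∧ ∀ g : X ≃ₜ X, (∀ x, dist (g x) (f x) < ε ∧ dist (g⁻¹ x) (f⁻¹ x) < ε) → g ∈ s := by
  have h0 : 𝓝 f = comap toPair (𝓝 (toPair f)) := nhds_induced _ _
  have h1 : ∀ (ε : ℝ) (_ : 0 < ε) (g : X ≃ₜ X), toPair g ∈ Metric.ball (toPair f) ε ↔
      (∀ x, dist (g x) (f x) < ε ∧ dist (g⁻¹ x) (f⁻¹ x) < ε) := by
    intro ε hε g
    rw [Metric.mem_ball, Prod.dist_eq, max_lt_iff, ContinuousMap.dist_lt_iff hε, ContinuousMap.dist_lt_iff hε]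
    constructor
    · rintro ⟨h1, h2⟩ x
      exact ⟨h1 x, h2 x⟩
    · intro h
      exact ⟨fun x => (h x).1, fun x => (h x).2⟩
  rw [h0, mem_comap]
  constructor
  · rintro ⟨t, ht, hts⟩
    obtain ⟨ε, hε, h2⟩ := Metric.mem_nhds_iff.1 ht
    exact ⟨ε, hε, fun g hg => hts (h2 ((h1 ε hε g).2 hg))⟩
  · rintro ⟨ε, hε, h2⟩
    exact ⟨Metric.ball (toPair f) ε, Metric.ball_mem_nhds _ hε, fun g hg => h2 g ((h1 ε hε g).1 hg)⟩

/-- The uniform closure is the closure. -/
theorem clo_eq_closure {X : Type*} [MetricSpace X] [CompactSpace X] (S : Subgroup (X ≃ₜ X)) :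
    clo S = closure (S : Set (X ≃ₜ X)) := by
  ext h
  rw [mem_closure_iff_nhds]
  constructor
  · intro hh t ht
    obtain ⟨ε, hε, h1⟩ := mem_nhds_homeo.1 ht
    obtain ⟨g, hg, h2⟩ := hh ε hε
    exact ⟨g, h1 g h2, hg⟩
  · intro hh ε hε
    obtain ⟨g, hg1, hg2⟩ := hh {g | ∀ x, dist (g x) (h x) < ε ∧ dist (g⁻¹ x) (h⁻¹ x) < ε}
      (mem_nhds_homeo.2 ⟨ε, hε, fun g hg => hg⟩)
    exact ⟨g, hg2, hg1⟩

end Pool.Agent.W_d1cfb0_U59
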