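import Mathlib

/-!
MP_d1cfb0_an. Pettis' theorem, the open mapping theorem for Polish groups, and topological finite generation of a group from
the one of a quotient and of the kernel.
-/

namespace Pool.Agent.W_d1cfb0_U59

open Topology Filter MeasureTheory Set Pointwise

/-- Pettis: a Baire measurable set which is not meagre has a difference set which is a neighbourhood of `1`. -/
theorem pettis {B : Type*} [Group B] [TopologicalSpace B] [IsTopologicalGroup B] [BaireSpace B] {s : Set B}
    (hs : BaireMeasurableSet s) (hm : ¬ IsMeagre s) : s * s⁻¹ ∈ 𝓝 (1 : B) := by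
  obtain ⟨u, hu, hsu⟩ := hs.residualEq_isOpen
  have hne : u.Nonempty := by
    by_contra hne
    rw [Set.not_nonempty_iff_eq_empty] at hne
    apply hm
    rw [hne] at hsu
    have h1 : {x | s x = (∅ : Set B) x} ∈ residual B := hsu
    refine mem_of_superset h1 fun x hx => ?_
    intro h2
    have h3 : (s x) = (∅ : Set B) x := hx
    have h4 : (∅ : Set B) x := h3 ▸ h2
    exact h4
  have h1 : u * u⁻¹ ∈ 𝓝 (1 : B) := by
    obtain ⟨x, hx⟩ := hne
    refine (hu.mul_right (t := u⁻¹)).mem_nhds ?_
    exact ⟨x, hx, x⁻¹, Set.inv_mem_inv.2 hx, mul_inv_cancel x⟩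
  refine mem_of_superset h1 ?_
  rintro b ⟨x, hx, y, hy, rfl⟩
  rw [Set.mem_inv] at hy
  obtain ⟨b, hb⟩ : ∃ b : B, b = x * y := ⟨_, rfl⟩
  rw [show (fun x1 x2 => x1 * x2) x y = b from hb.symm]
  have hO : IsOpen (u ∩ (fun z => b⁻¹ * z) ⁻¹' u) := hu.inter (hu.preimage (continuous_const_mul _))
  have hOne : (u ∩ (fun z => b⁻¹ * z) ⁻¹' u).Nonempty := by
    refine ⟨x, hx, ?_⟩
    show b⁻¹ * x ∈ u
    rw [hb, mul_inv_rev, mul_assoc, inv_mul_cancel, mul_one]
    exact hy
  have hr1 : {z | z ∈ s ↔ z ∈ u} ∈ residual B := by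
    refine mem_of_superset hsu fun z hz => ?_
    have hz' : s z = u z := hz
    exact iff_of_eq hz'
  have hr2 : {z | b⁻¹ * z ∈ s ↔ b⁻¹ * z ∈ u} ∈ residual B :=
    (tendsto_residual_of_isOpenMap (continuous_const_mul b⁻¹) (isOpenMap_mul_left b⁻¹)) hr1
  obtain ⟨z, ⟨hz1, hz2⟩, hz3, hz4⟩ := (dense_of_mem_residual (inter_mem hr1 hr2)).inter_open_nonempty _ hO hOne
  refine ⟨z, hz3.2 hz1, (b⁻¹ * z)⁻¹, Set.inv_mem_inv.2 (hz4.2 hz2), ?_⟩
  show z * (b⁻¹ * z)⁻¹ = b
  group

/-- The open mapping theorem for Polish groups. -/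
theorem polish_open {G B : Type*} [Group G] [TopologicalSpace G] [IsTopologicalGroup G] [PolishSpace G]
    [Group B] [TopologicalSpace B] [IsTopologicalGroup B] [PolishSpace B] (f : G →* B) (hf : Continuous f)
    (hs : Function.Surjective f) {U : Set G} (hU : U ∈ 𝓝 (1 : G)) : f '' U ∈ 𝓝 (1 : B) := by
  obtain ⟨V₀, hV₀, hVU⟩ := exists_nhds_split_inv hU
  obtain ⟨V, hVV, hVo, hV1⟩ := mem_nhds_iff.1 hV₀
  -- the image of `V` is Borel
  borelize B
  have hA : AnalyticSet (f '' V) := hVo.analyticSet_image hf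
  have hAc : AnalyticSet (f '' V)ᶜ := by
    have h1 : (f '' V)ᶜ = f '' (f ⁻¹' (f '' V))ᶜ := by
      ext b
      constructor
      · intro hb
        obtain ⟨g, rfl⟩ := hs b
        exact ⟨g, hb, rfl⟩
      · rintro ⟨g, hg, rfl⟩
        exact hg
    rw [h1]
    have h2 : IsOpen (f ⁻¹' (f '' V)) := by
      have h3 : f ⁻¹' (f '' V) = V * (f.ker : Set G) := by
        ext g
        constructor
        · rintro ⟨v, hv, hvg⟩
          refine ⟨v, hv, v⁻¹ * g, ?_, ?_⟩
          · show f (v⁻¹ * g) = 1
            rw [map_mul, map_inv, hvg, inv_mul_cancel]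
          · show v * (v⁻¹ * g) = g
            group
        · rintro ⟨v, hv, k, hk, rfl⟩
          refine ⟨v, hv, ?_⟩
          have hk' : f k = 1 := hk
          show f v = f (v * k)
          rw [map_mul, hk', mul_one]
      rw [h3]
      exact hVo.mul_right
    exact h2.isClosed_compl.analyticSet.image_of_continuous hf
  have hBM : BaireMeasurableSet (f '' V) := (hA.measurableSet_of_compl hAc).baireMeasurableSet
  -- it is not meagre
  have hnm : ¬ IsMeagre (f '' V) := by
    intro hm
    obtain ⟨g, hg⟩ := TopologicalSpace.exists_dense_seq G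
    have h1 : ⋃ k, (fun z => (f (g k))⁻¹ * z) ⁻¹' (f '' V) = univ := by
      refine eq_univ_of_forall fun b => ?_
      obtain ⟨x, rfl⟩ := hs b
      have h2 : {y : G | y⁻¹ * x ∈ V} ∈ 𝓝 x := by
        have h3 : Continuous fun y : G => y⁻¹ * x := continuous_inv.mul continuous_const
        refine (hVo.preimage h3).mem_nhds ?_
        show x⁻¹ * x ∈ V
        rw [inv_mul_cancel]
        exact hV1
      obtain ⟨k, hk⟩ := hg.exists_mem_open (hVo.preimage (continuous_inv.mul continuous_const)) ⟨x, mem_of_mem_nhds h2⟩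
      refine mem_iUnion.2 ⟨k, (g k)⁻¹ * x, hk, ?_⟩
      rw [map_mul, map_inv]
    have h2 : ∀ k, IsMeagre ((fun z => (f (g k))⁻¹ * z) ⁻¹' (f '' V)) := fun k =>
      hm.preimage_of_isOpenMap (continuous_const_mul _) (isOpenMap_mul_left _)
    have h3 : IsMeagre (univ : Set B) := by
      rw [← h1]
      exact isMeagre_iUnion h2
    have h4 : (∅ : Set B) ∈ residual B := by
      have h5 : (univ : Set B)ᶜ ∈ residual B := h3
      rwa [compl_univ] at h5
    have h6 := dense_of_mem_residual h4
    have h7 := h6.nonempty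
    exact h7.ne_empty rfl
  have hP := pettis hBM hnm
  refine mem_of_superset hP ?_
  rintro b ⟨x, ⟨v, hv, rfl⟩, y, hy, rfl⟩
  rw [Set.mem_inv] at hy
  obtain ⟨w, hw, hwy⟩ := hy
  refine ⟨v / w, hVU v (hVV hv) w (hVV hw), ?_⟩
  show f (v / w) = f v * y
  rw [map_div, hwy, div_inv_eq_mul]

/-- In a Polish group, an element is in the closure of a subgroup `H₀` if its image in a quotient is in the closure of the
image of `H₀` and the kernel is in the closure of `H₀`. -/
theorem mem_closure_of_quot {G B : Type*} [Group G] [TopologicalSpace G] [IsTopologicalGroup G] [PolishSpace G]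
    [Group B] [TopologicalSpace B] [IsTopologicalGroup B] [PolishSpace B] (f : G →* B) (hf : Continuous f)
    (hs : Function.Surjective f) (H₀ : Subgroup G) (hK : (f.ker : Set G) ⊆ closure (H₀ : Set G)) (g : G)
    (hd : f g ∈ closure (f '' (H₀ : Set G))) : g ∈ closure (H₀ : Set G) := by
  obtain ⟨H, hH⟩ : ∃ H : Subgroup G, H = H₀.topologicalClosure := ⟨_, rfl⟩
  have hHc : (H : Set G) = closure (H₀ : Set G) := by
    rw [hH]
    rfl
  have hKH : (f.ker : Set G) ⊆ H := by
    rw [hHc]
    exact hK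
  have hdH : f g ∈ closure (f '' (H : Set G)) := by
    refine closure_mono (image_mono ?_) hd
    rw [hHc]
    exact subset_closure
  rw [← hHc]
  have hHcl : IsClosed (H : Set G) := by
    rw [hHc]
    exact isClosed_closure
  rw [← hHcl.closure_eq, mem_closure_iff_nhds]
  intro U hU
  have hV : {v : G | g * v ∈ U} ∈ 𝓝 (1 : G) := by
    have h1 : Tendsto (fun v : G => g * v) (𝓝 1) (𝓝 (g * 1)) := (continuous_const_mul g).tendsto 1
    rw [mul_one] at h1
    exact h1 hU
  have h1 := polish_open f hf hs hV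
  have h2 : {b : B | (f g)⁻¹ * b ∈ f '' {v : G | g * v ∈ U}} ∈ 𝓝 (f g) := by
    have h3 : Tendsto (fun b : B => (f g)⁻¹ * b) (𝓝 (f g)) (𝓝 ((f g)⁻¹ * f g)) :=
      (continuous_const_mul (f g)⁻¹).tendsto (f g)
    rw [inv_mul_cancel] at h3
    exact h3 h1
  obtain ⟨b, hb1, y, hy, rfl⟩ := mem_closure_iff_nhds.1 hdH _ h2
  obtain ⟨v, hv, hvb⟩ := hb1
  refine ⟨g * v, hv, ?_⟩
  have h3 : y⁻¹ * (g * v) ∈ H := hKH (show f (y⁻¹ * (g * v)) = 1 by
    rw [map_mul, map_mul, hvb, map_inv]
    group)
  have h4 := H.mul_mem hy h3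
  rwa [mul_inv_cancel_left] at h4

/-- In a Polish group, a subgroup with dense image in a quotient and with the kernel in its closure is dense. -/
theorem dense_of_quot {G B : Type*} [Group G] [TopologicalSpace G] [IsTopologicalGroup G] [PolishSpace G]
    [Group B] [TopologicalSpace B] [IsTopologicalGroup B] [PolishSpace B] (f : G →* B) (hf : Continuous f)
    (hs : Function.Surjective f) (H₀ : Subgroup G) (hK : (f.ker : Set G) ⊆ closure (H₀ : Set G))
    (hd : Dense (f '' (H₀ : Set G))) : Dense (H₀ : Set G) := fun g =>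
  mem_closure_of_quot f hf hs H₀ hK g (hd _)

/-- Topological finite generation. -/
def TFG (G : Type*) [Group G] [TopologicalSpace G] : Prop :=
  ∃ F : Set G, F.Finite ∧ Dense ((Subgroup.closure F : Subgroup G) : Set G)

/-- A Polish group is topologically finitely generated as soon as a quotient is and the kernel is in the closure of a
finitely generated subgroup. -/
theorem tfg_iff {G B : Type*} [Group G] [TopologicalSpace G] [IsTopologicalGroup G] [PolishSpace G]
    [Group B] [TopologicalSpace B] [IsTopologicalGroup B] [PolishSpace B] (f : G →* B) (hf : Continuous f)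
    (hs : Function.Surjective f)
    (hK : ∃ F : Set G, F.Finite ∧ (f.ker : Set G) ⊆ closure ((Subgroup.closure F : Subgroup G) : Set G)) :
    TFG G ↔ TFG B := by
  constructor
  · rintro ⟨F, hF, hd⟩
    refine ⟨f '' F, hF.image f, ?_⟩
    have h1 : Dense (f '' ((Subgroup.closure F : Subgroup G) : Set G)) := by
      have := hs.denseRange.dense_image hf hd
      exact this
    have h2 : f '' ((Subgroup.closure F : Subgroup G) : Set G) = ((Subgroup.closure (f '' F) : Subgroup B) : Set B) := by
      rw [← MonoidHom.map_closure]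
      rfl
    rwa [h2] at h1
  · rintro ⟨F, hF, hd⟩
    obtain ⟨FK, hFK, hKK⟩ := hK
    classical
    obtain ⟨r, hr⟩ : ∃ r : B → G, ∀ b, f (r b) = b := ⟨Function.surjInv hs, Function.surjInv_eq hs⟩
    refine ⟨FK ∪ r '' F, hFK.union (hF.image r), ?_⟩
    refine dense_of_quot f hf hs _ (hKK.trans (closure_mono (Subgroup.closure_mono subset_union_left))) ?_
    refine hd.mono ?_
    have h1 : Subgroup.closure F ≤ (Subgroup.closure (FK ∪ r '' F)).map f := by
      rw [Subgroup.closure_le]
      intro b hb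
      exact ⟨r b, Subgroup.subset_closure (Or.inr ⟨b, hb, rfl⟩), hr b⟩
    exact fun b hb => h1 hb

end Pool.Agent.W_d1cfb0_U59
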